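import Pool.Agent.H257R2.LJW.Clique
import Pool.Agent.H741R2.LJPoly

/-!
# Throughput scheduling with release dates is W[1]-hard in the maximum processing time

`Jobs` is the decision version of `1 | r_j | ∑ U_j`, `WJobs` the one of `1 | r_j | ∑ w_j U_j`, and
`pmax`, `wpmax` are the maximum processing times.  The reduction from 3SAT
(`Pool.Agent.H741R2.LJ`) only produces instances with processing times at most `13` in which all jobs
have to be on time.
-/

set_option autoImplicit false

namespace Pool.Agent.Results.MP_4ed2ca_lc.PmaxWOneHard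

open Pool.Agent.NPC Pool.Agent.H633R2 Pool.Agent.H741R2.LJ Pool.Agent.H257R2.LJW

theorem foldr_le {α : Type} (l : List α) (f : α → ℕ) (c : ℕ) (h : ∀ j ∈ l, f j ≤ c) :
    l.foldr (fun j m => max (f j) m) 0 ≤ c := by
  induction l with
  | nil => simp
  | cons a l ih =>
    rw [List.foldr_cons]
    exact max_le (h a (by simp)) (ih fun j hj => h j (by simp [hj]))

theorem jobs_iff (φ : List Cl) : SAT3 φ ↔ Jobs (inst φ) := by
  rw [inst_correct (c := 13) le_rfl φ]
  unfold LateJobs Jobs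
  refine and_congr ⟨fun h j hj => (h j hj).1, fun _ j hj => ?_⟩ Iff.rfl
  unfold inst at hj
  rw [List.mem_map] at hj
  obtain ⟨x, _, rfl⟩ := hj
  exact ⟨len_pos _ x, len_le _ x⟩

theorem wjobs_iff (φ : List Cl) : SAT3 φ ↔ WJobs (instW φ) := by
  rw [instW_correct (c := 13) le_rfl φ]
  unfold WeightedLateJobs WJobs
  refine and_congr ⟨fun h j hj => ⟨(h j hj).1, ?_⟩, fun _ j hj => ?_⟩ Iff.rfl
  · unfold instW at hj
    rw [List.mem_map] at hj
    obtain ⟨x, _, rfl⟩ := hj
    exact le_rfl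
  · unfold instW at hj
    rw [List.mem_map] at hj
    obtain ⟨x, _, rfl⟩ := hj
    exact ⟨len_pos _ x, len_le _ x⟩

theorem pmax_inst (φ : List Cl) : pmax (inst φ) ≤ 13 := by
  refine foldr_le _ _ _ fun j hj => ?_
  unfold inst at hj
  rw [List.mem_map] at hj
  obtain ⟨x, _, rfl⟩ := hj
  exact len_le _ x

theorem wpmax_instW (φ : List Cl) : wpmax (instW φ) ≤ 13 := by
  refine foldr_le _ _ _ fun j hj => ?_
  unfold instW at hj
  rw [List.mem_map] at hj
  obtain ⟨x, _, rfl⟩ := hj
  exact len_le _ x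

theorem hard_jobs : HardPr (fun I => pmax I ≤ 13) Jobs :=
  hardI_SAT3.toHardPr.trans inst_poly (fun φ _ => pmax_inst φ) (fun φ _ => jobs_iff φ)

theorem hard_wjobs : HardPr (fun I => wpmax I ≤ 13) WJobs :=
  hardI_SAT3.toHardPr.trans instW_poly (fun φ _ => wpmax_instW φ) (fun φ _ => wjobs_iff φ)

/-- **`1 | r_j | ∑ U_j` and `1 | r_j | ∑ w_j U_j`, parameterized by the maximum processing time, are
`W[1]`-hard.**  In fact every language of `NP` is reduced in polynomial time to instances whose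
processing times are at most `13`, so neither problem is in `XP` unless `P = NP`. -/
theorem result :
    (W1Hard pmax Jobs ∧ W1Hard wpmax WJobs) ∧
    (∀ L : Set (List Bool), InNP L → ∃ f : List Bool → List (ℕ × ℕ × ℤ) × ℕ,
      PolyTime (fun x => bits (f x)) ∧ (∀ x, pmax (f x) ≤ 13) ∧ ∀ x, x ∈ L ↔ Jobs (f x)) ∧
    (InXP pmax Jobs → ∀ L : Set (List Bool), InNP L → InP L) ∧
    (InXP wpmax WJobs → ∀ L : Set (List Bool), InNP L → InP L) := by
  refine ⟨⟨w1Hard_of_hardPr 13 hard_jobs, w1Hard_of_hardPr 13 hard_wjobs⟩, fun L hL => ?_,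
    xp_collapse 13 hard_jobs, xp_collapse 13 hard_wjobs⟩
  obtain ⟨f, hf, hpr, h⟩ := hard_jobs L hL
  exact ⟨f, PC.toPolyTime hf, hpr, h⟩

end Pool.Agent.Results.MP_4ed2ca_lc.PmaxWOneHard
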